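import Mathlib
import Pool.Agent.R106.DixonGraph

/-! # Dense frameworks without rigid parts

Minkowski products of Dixon frameworks: `n`-vertex graphs with `(k / 4) n ^ (1 + 1 / k)` edges,
injectively placed in the plane, such that no line contains more than the proportion `2 / k` of
the neighbours of a vertex, and such that no subgraph with at least three vertices is rigid. -/

set_option autoImplicit false

namespace Pool.Agent.Results.MP_a65cb7_co.DixonProducts

open scoped Topology
open Pool.Agent.R106.Dixon

/-- The framework given by the subgraph `H` and the realization `p` (restricted to the vertices of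
`H`) is rigid: some neighbourhood `U` of the restricted realization has the property that every
realization `q` of `H` in `U` which has the same edge lengths on `H` is congruent to it. The plane
is the complex plane. -/
def IsRigid {n : ℕ} {G : SimpleGraph (Fin n)} (H : G.Subgraph) (p : Fin n → ℂ) : Prop :=
  ∃ U ∈ 𝓝 (fun a : H.verts => p a), ∀ q ∈ U,
    (∀ a b : H.verts, H.Adj a b → dist (p a) (p b) = dist (q a) (q b)) →
      ∀ a b : H.verts, dist (p a) (p b) = dist (q a) (q b)

/-- For every `k ≥ 3` there are arbitrarily large `n`, a graph `G` on `n` vertices with at least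
`(k / 4) n ^ (1 + 1 / k)` edges and an injective realization `p` of `G` in the plane such that
no neighbourhood is collinear (a collinear set of neighbours of a vertex contains at most the
proportion `2 / k` of all its neighbours) and no subgraph of `G` with at least three vertices gives
a rigid framework. -/
theorem result : ∀ k : ℕ, 3 ≤ k → ∀ N : ℕ, ∃ n : ℕ, N ≤ n ∧
    ∃ (G : SimpleGraph (Fin n)) (p : Fin n → ℂ), Function.Injective p ∧
      (k : ℝ) / 4 * (n : ℝ) ^ (1 + 1 / (k : ℝ)) ≤ (G.edgeSet.ncard : ℝ) ∧
      (∀ v, ¬ Collinear ℝ (p '' G.neighborSet v)) ∧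
      (∀ v, ∀ T : Finset (Fin n), (∀ w ∈ T, G.Adj v w) → Collinear ℝ (p '' (T : Set (Fin n))) →
        k * T.card ≤ 2 * (G.neighborSet v).ncard) ∧
      ∀ H : G.Subgraph, 3 ≤ H.verts.ncard → ¬ IsRigid H p := by
  classical
  intro k hk N
  obtain ⟨m, hm1, hm2, hm3⟩ : ∃ m : ℕ, N ≤ m ∧ k ≤ m ∧ 1 ≤ m :=
    ⟨max N k, le_max_left _ _, le_max_right _ _, by
      have := le_max_right N k
      omega⟩
  obtain ⟨n, hn⟩ : ∃ n : ℕ, n = Fintype.card (V k m) := ⟨_, rfl⟩
  have hn' : n = (2 * m) ^ k := by
    rw [hn]
    simp
  let e : Fin n ≃ V k m := (Fintype.equivFinOfCardEq hn.symm).symm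
  let G : SimpleGraph (Fin n) :=
    { Adj := fun a b => adj (e a) (e b)
      symm := ⟨by
        rintro a b ⟨l, h1, h2⟩
        exact ⟨l, h1.symm, fun l' hl' => (h2 l' hl').symm⟩⟩
      loopless := ⟨by
        rintro a ⟨l, h1, _⟩
        exact h1 rfl⟩ }
  let g : Fin n → Fin k × Fin m → Fin n := fun v x => e.symm (nb (e v) x)
  have hg : ∀ v, Function.Injective (g v) := fun v x y h => nb_inj (e v) (e.symm.injective h)
  have hG : ∀ v, G.neighborSet v = Set.range (g v) := by
    intro v
    ext w
    constructor
    · intro hw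
      obtain ⟨x, hx⟩ := exists_nb (e v) (e w) hw
      refine ⟨x, ?_⟩
      change e.symm (nb (e v) x) = w
      rw [← hx, Equiv.symm_apply_apply]
    · rintro ⟨x, rfl⟩
      change adj (e v) (e (e.symm (nb (e v) x)))
      rw [Equiv.apply_symm_apply]
      exact adj_nb _ _
  have hdeg : ∀ v, (G.neighborSet v).ncard = k * m := by
    intro v
    rw [hG v, ← Nat.card_coe_set_eq, Nat.card_range_of_injective (hg v)]
    simp
  have hT : ∀ v, ∀ T : Finset (Fin n), (∀ w ∈ T, G.Adj v w) →
      Collinear ℝ ((fun w => pos dd (e w)) '' (T : Set (Fin n))) →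
        k * T.card ≤ 2 * (G.neighborSet v).ncard := by
    intro v T hT hcol
    rw [hdeg v]
    let S : Finset (Fin k × Fin m) := Finset.univ.filter (fun x => g v x ∈ T)
    have hTS : T = S.image (g v) := by
      ext w
      rw [Finset.mem_image]
      constructor
      · intro hw
        have : w ∈ G.neighborSet v := hT w hw
        rw [hG v] at this
        obtain ⟨x, rfl⟩ := this
        exact ⟨x, Finset.mem_filter.2 ⟨Finset.mem_univ _, hw⟩, rfl⟩
      · rintro ⟨x, hx, rfl⟩
        exact (Finset.mem_filter.1 hx).2
    have hcard : T.card = S.card := by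
      rw [hTS, Finset.card_image_of_injective _ (hg v)]
    have hcol2 : Collinear ℝ ((fun x => pos dd (nb (e v) x)) '' (S : Set (Fin k × Fin m))) := by
      have : (fun x => pos dd (nb (e v) x)) '' (S : Set (Fin k × Fin m)) =
          (fun w => pos dd (e w)) '' (T : Set (Fin n)) := by
        rw [hTS, Finset.coe_image, Set.image_image]
        apply Set.image_congr
        intro x _
        change _ = pos dd (e (e.symm (nb (e v) x)))
        rw [Equiv.apply_symm_apply]
      rw [this]
      exact hcol
    have h1 := collinear_card (e v) S hcol2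
    rw [hcard]
    calc k * S.card ≤ k * (m + k) := Nat.mul_le_mul_left _ h1
      _ ≤ k * (2 * m) := Nat.mul_le_mul_left _ (by omega)
      _ = 2 * (k * m) := by ring
  refine ⟨n, ?_, G, fun a => pos dd (e a), ?_, ?_, ?_, hT, ?_⟩
  · rw [hn']
    calc N ≤ 2 * m := by omega
      _ = (2 * m) ^ 1 := (pow_one _).symm
      _ ≤ (2 * m) ^ k := Nat.pow_le_pow_right (by omega) (by omega)
  · exact fun a b h => e.injective (pos_inj h)
  · have hsum := G.sum_degrees_eq_twice_card_edges
    have hd : ∀ v, G.degree v = k * m := by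
      intro v
      rw [← hdeg v, ← SimpleGraph.card_neighborSet_eq_degree, Set.ncard_eq_toFinset_card',
        Set.toFinset_card]
    simp only [hd] at hsum
    rw [Finset.sum_const, Finset.card_univ, Fintype.card_fin, smul_eq_mul] at hsum
    have hE : G.edgeSet.ncard = G.edgeFinset.card := by
      rw [Set.ncard_eq_toFinset_card']
      rfl
    rw [hE]
    have h2 : ((n : ℝ) * (k * m)) = 2 * (G.edgeFinset.card : ℝ) := by exact_mod_cast hsum
    have hm0 : (0 : ℝ) < 2 * m := by
      have : (1 : ℝ) ≤ m := by exact_mod_cast hm3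
      linarith
    have hk0 : (k : ℝ) ≠ 0 := by
      have : k ≠ 0 := by omega
      exact_mod_cast this
    have hnr : (n : ℝ) = (2 * m : ℝ) ^ (k : ℝ) := by
      rw [Real.rpow_natCast, hn']
      push_cast
      ring
    have hn0 : (0 : ℝ) < n := by
      rw [hnr]
      positivity
    have h3 : (n : ℝ) ^ (1 + 1 / (k : ℝ)) = n * (2 * m) := by
      rw [Real.rpow_add hn0, Real.rpow_one]
      congr 1
      rw [hnr, ← Real.rpow_mul hm0.le, mul_one_div_cancel hk0, Real.rpow_one]
    rw [h3]
    linarith
  · intro v hcol
    have h1 := hT v (G.neighborSet v).toFinset (fun w hw => by simpa using hw) (by simpa using hcol)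
    rw [← Set.ncard_eq_toFinset_card', hdeg v] at h1
    have h2 : 0 < k * m := Nat.mul_pos (by omega) (by omega)
    nlinarith
  · rintro H hH ⟨U, hU, hrig⟩
    obtain ⟨a, b, c, ha, hb, hc, hab, hac, hbc⟩ :=
      (Set.two_lt_ncard_iff (Set.toFinite _)).1 (lt_of_lt_of_le (by norm_num) hH)
    obtain ⟨q, hq1, hq2, x, y, hxy⟩ := core (k := k) (m := m) (fun z : H.verts => e z)
      (fun z z' h => Subtype.ext (e.injective h)) ⟨a, ha⟩ ⟨b, hb⟩ ⟨c, hc⟩
      (fun h => hab (congrArg Subtype.val h)) (fun h => hac (congrArg Subtype.val h))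
      (fun h => hbc (congrArg Subtype.val h)) U hU
    exact hxy (hrig q hq1 (fun z z' hz => hq2 z z' (H.adj_sub hz)) x y)

end Pool.Agent.Results.MP_a65cb7_co.DixonProducts
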